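import Pool.Agent.N656.PC.Stm

set_option autoImplicit false

/-! PC/GAH (for helper656): degenerate forms at the level `H ^ (9 / 16)`. -/

open Finset

namespace Pool.Agent.N498.PC

open Pool.Agent.R414.DN Pool.Agent.R414.DS Pool.Agent.N656.PC

/-- the coordinate `(d, 0)` -/
def p0 (d : ℕ) : ↥(I d) := ⟨(d, 0), by rw [mem_I]; exact ⟨le_rfl, Nat.zero_le _⟩⟩

/-- the coordinate `(d, 1)` -/
def p1 {d : ℕ} (hd : 1 ≤ d) : ↥(I d) := ⟨(d, 1), by rw [mem_I]; exact ⟨le_rfl, hd⟩⟩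

lemma co_p0 {d : ℕ} (a : Cf d) : co a d 0 = a (p0 d) := co_of_mem a (p0 d).2

lemma co_p1 {d : ℕ} (hd : 1 ≤ d) (a : Cf d) : co a d 1 = a (p1 hd) := co_of_mem a (p1 hd).2

lemma p_ne {d : ℕ} (hd : 1 ≤ d) : p0 d ≠ p1 hd := by
  intro h
  have := congrArg (fun p : ↥(I d) => p.1.2) h
  exact one_ne_zero this.symm

/-- the rest of the value -/
noncomputable def R0 {d : ℕ} (a : Cf d) (t : ℝ) : ℝ :=
  ∑ j ∈ range (d - 1), (co a d (j + 2) : ℝ) * t ^ (j + 2)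

/-- the rest of the derivative -/
noncomputable def R1 {d : ℕ} (a : Cf d) (t : ℝ) : ℝ :=
  ∑ j ∈ range (d - 1), (((j + 2).choose 1 : ℕ) : ℝ) * (co a d (j + 2) : ℝ) * t ^ (j + 2 - 1)

lemma TT0 {d : ℕ} (hd : 1 ≤ d) (a : Cf d) (t : ℝ) :
    TT (co a) d 0 t = (a (p0 d) : ℝ) + (a (p1 hd) : ℝ) * t + R0 a t := by
  rw [← co_p0 a, ← co_p1 hd a]
  obtain ⟨e, rfl⟩ : ∃ e, d = e + 1 := ⟨d - 1, by omega⟩
  rw [TT_zero, sum_range_succ', sum_range_succ']
  have h : R0 a t = ∑ k ∈ range e, (co a (e + 1) (k + 1 + 1) : ℝ) * t ^ (k + 1 + 1) := rfl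
  rw [h]
  simp only [zero_add, pow_zero, pow_one, mul_one]
  ring

lemma TT1 {d : ℕ} (hd : 1 ≤ d) (a : Cf d) (t : ℝ) :
    TT (co a) d 1 t = (a (p1 hd) : ℝ) + R1 a t := by
  rw [← co_p1 hd a]
  obtain ⟨e, rfl⟩ : ∃ e, d = e + 1 := ⟨d - 1, by omega⟩
  unfold TT
  rw [sum_range_succ', sum_range_succ']
  have h : R1 a t = ∑ k ∈ range e, (((k + 1 + 1).choose 1 : ℕ) : ℝ) * (co a (e + 1) (k + 1 + 1) : ℝ) *
    t ^ (k + 1 + 1 - 1) := rfl
  rw [h]
  simp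
  ring

lemma co_off {d : ℕ} (hd : 1 ≤ d) {a b : Cf d} (h : ∀ i ∉ ({p0 d, p1 hd} : Finset ↥(I d)), a i = b i) (j : ℕ) :
    co a d (j + 2) = co b d (j + 2) := by
  unfold co
  split_ifs with h1
  · apply h
    rw [mem_insert, mem_singleton, not_or]
    constructor
    · intro h2
      have := congrArg (fun p : ↥(I d) => p.1.2) h2
      simp [p0] at this
    · intro h2
      have := congrArg (fun p : ↥(I d) => p.1.2) h2
      simp [p1] at this
  · rfl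

lemma R0_off {d : ℕ} (hd : 1 ≤ d) {a b : Cf d} (h : ∀ i ∉ ({p0 d, p1 hd} : Finset ↥(I d)), a i = b i) (t : ℝ) :
    R0 a t = R0 b t := by
  unfold R0
  refine sum_congr rfl fun j _ => ?_
  rw [co_off hd h]

lemma R1_off {d : ℕ} (hd : 1 ≤ d) {a b : Cf d} (h : ∀ i ∉ ({p0 d, p1 hd} : Finset ↥(I d)), a i = b i) (t : ℝ) :
    R1 a t = R1 b t := by
  unfold R1
  refine sum_congr rfl fun j _ => ?_
  rw [co_off hd h]

/-- the pairs of the first two coordinates, in terms of the second coordinate -/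
lemma fiber {d : ℕ} (hd : 1 ≤ d) (t D0 D1 : ℝ) (h1 : D0 < 1 / 2) (b : Cf d)
    (T : Finset (Cf d)) (hT : ∀ a ∈ T, ∀ i ∉ ({p0 d, p1 hd} : Finset ↥(I d)), a i = b i)
    (hT0 : ∀ a ∈ T, |TT (co a) d 0 t| ≤ D0) (hT1 : ∀ a ∈ T, |TT (co a) d 1 t| ≤ D1) :
    ∃ (A : ℤ) (c : ℝ) (N : Finset ℤ), T.card = N.card ∧
      ∀ n ∈ N, (A ≤ n ∧ n < A + ((⌊2 * D1⌋₊ + 1 : ℕ) : ℤ)) ∧ ∃ u : ℤ, |(u : ℝ) + n * t + c| ≤ D0 := by
  classical
  refine ⟨⌈-(R1 b t) - D1⌉, R0 b t, T.image fun a => a (p1 hd), ?_, ?_⟩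
  · rw [card_image_of_injOn]
    intro a ha a' ha' haa
    simp only at haa
    have e1 := hT0 a ha
    have e2 := hT0 a' ha'
    rw [TT0 hd, R0_off hd (hT a ha)] at e1
    rw [TT0 hd, R0_off hd (hT a' ha'), ← haa] at e2
    have e3 : |((a (p0 d) - a' (p0 d) : ℤ) : ℝ)| < 1 := by
      push_cast
      have : (a (p0 d) : ℝ) - a' (p0 d) = ((a (p0 d) : ℝ) + (a (p1 hd) : ℝ) * t + R0 b t) -
        ((a' (p0 d) : ℝ) + (a (p1 hd) : ℝ) * t + R0 b t) := by ring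
      rw [this]
      refine lt_of_le_of_lt (abs_sub _ _) ?_
      linarith
    have e4 : |a (p0 d) - a' (p0 d)| < 1 := by exact_mod_cast e3
    have e5 : a (p0 d) = a' (p0 d) := by
      rw [Int.abs_lt_one_iff] at e4
      omega
    funext i
    by_cases hi : i ∈ ({p0 d, p1 hd} : Finset ↥(I d))
    · rw [mem_insert, mem_singleton] at hi
      rcases hi with rfl | rfl
      · exact e5
      · exact haa
    · rw [hT a ha i hi, hT a' ha' i hi]
  · intro n hn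
    rw [mem_image] at hn
    obtain ⟨a, ha, rfl⟩ := hn
    have e1 := hT0 a ha
    have e2 := hT1 a ha
    rw [TT0 hd, R0_off hd (hT a ha)] at e1
    rw [TT1 hd, R1_off hd (hT a ha)] at e2
    rw [abs_le] at e2
    refine ⟨⟨?_, ?_⟩, a (p0 d), e1⟩
    · rw [Int.ceil_le]
      linarith [e2.1]
    · have h3 : ((a (p1 hd) - ⌈-(R1 b t) - D1⌉ : ℤ) : ℝ) ≤ 2 * D1 := by
        push_cast
        have := Int.le_ceil (-(R1 b t) - D1)
        linarith [e2.2]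
      have h4 : a (p1 hd) - ⌈-(R1 b t) - D1⌉ ≤ ⌊2 * D1⌋ := Int.le_floor.2 h3
      have h5 : ⌊2 * D1⌋ ≤ (⌊2 * D1⌋₊ : ℤ) := by
        rw [← Int.floor_toNat]
        exact Int.self_le_toNat _
      push_cast
      omega

lemma card_trivial {A : ℤ} {L : ℕ} {N : Finset ℤ} (h : ∀ n ∈ N, A ≤ n ∧ n < A + L) : N.card ≤ L := by
  have h1 : N ⊆ Ico A (A + L) := fun n hn => mem_Ico.2 (h n hn)
  have h2 := card_le_card h1
  rw [Int.card_Ico] at h2
  omega

/-- the grid point -/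
lemma cover {d H : ℕ} {w : ℝ} (hd : 1 ≤ d) (hw : 1 ≤ w) {a : Cf d} (ha : a ∈ ibox ↥(I d) H)
    (hG : ¬ GA (co a) d H w) : ∃ k ∈ Icc (-⌊2 * w⌋) ⌊2 * w⌋,
      |TT (co a) d 0 ((k : ℝ) / w)| ≤ (2 + d * c1 d) * (H / w ^ 2) ∧
      |TT (co a) d 1 ((k : ℝ) / w)| ≤ (1 + d * c1 d) * (H / w) := by
  have hc1 := c1_pos d
  have hw0 : 0 < w := by linarith
  have hH0 : (0 : ℝ) ≤ H := Nat.cast_nonneg H
  unfold GA at hG
  push Not at hG
  obtain ⟨t, ht, h3, h4⟩ := hG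
  obtain ⟨k, hk, h5, h6⟩ := grid ht hw0
  refine ⟨k, hk, ?_, ?_⟩
  · have h5' : |(k : ℝ) / w - t| ≤ 1 / w := by rw [abs_sub_comm]; exact h5
    have h7 := TT_second (co_le' ha) hd ht h5' (by rw [div_le_one hw0]; exact hw)
    rw [add_sub_cancel] at h7
    have h8 : |TT (co a) d 0 ((k : ℝ) / w)| ≤ |TT (co a) d 0 ((k : ℝ) / w) -
        (TT (co a) d 0 t + TT (co a) d 1 t * ((k : ℝ) / w - t))| +
        (|TT (co a) d 0 t| + |TT (co a) d 1 t| * |(k : ℝ) / w - t|) := by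
      have e : TT (co a) d 0 ((k : ℝ) / w) = (TT (co a) d 0 ((k : ℝ) / w) -
        (TT (co a) d 0 t + TT (co a) d 1 t * ((k : ℝ) / w - t))) +
        (TT (co a) d 0 t + TT (co a) d 1 t * ((k : ℝ) / w - t)) := by ring
      calc |TT (co a) d 0 ((k : ℝ) / w)| = |(TT (co a) d 0 ((k : ℝ) / w) -
        (TT (co a) d 0 t + TT (co a) d 1 t * ((k : ℝ) / w - t))) +
        (TT (co a) d 0 t + TT (co a) d 1 t * ((k : ℝ) / w - t))| := by rw [← e]
        _ ≤ _ := by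
          refine (abs_add_le _ _).trans ?_
          gcongr
          refine (abs_add_le _ _).trans ?_
          rw [abs_mul]
    calc |TT (co a) d 0 ((k : ℝ) / w)| ≤ d * c1 d * H * (1 / w) ^ 2 +
          (H / w ^ 2 + H / w * (1 / w)) := by
          refine h8.trans ?_
          gcongr
      _ = _ := by field_simp; ring
  · have h7 := TT_lip (co_le' ha) (le_refl d) 1 ht h6
    have h8 : |TT (co a) d 1 ((k : ℝ) / w)| ≤ |TT (co a) d 1 t| +
        |TT (co a) d 1 t - TT (co a) d 1 ((k : ℝ) / w)| := by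
      have := abs_sub (TT (co a) d 1 t) (TT (co a) d 1 t - TT (co a) d 1 ((k : ℝ) / w))
      simpa using this
    calc |TT (co a) d 1 ((k : ℝ) / w)| ≤ H / w + d * c1 d * H * (1 / w) := by
          refine h8.trans (add_le_add h4.le (h7.trans ?_))
          gcongr
      _ = _ := by ring

/-- grid points close to fractions with a small denominator -/
lemma count_small {w : ℝ} (hw : 1 ≤ w) {L Q : ℕ} (hL : 1 ≤ L) (hQ : 1 ≤ Q) (K : Finset ℤ)
    (hK : ∀ k ∈ K, |(k : ℝ) / w| ≤ 2) (r : ℤ → ℚ)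
    (hr : ∀ k : ℤ, |(k : ℝ) / w - r k| ≤ 1 / (((L : ℝ) + 1) * (r k).den)) :
    ((K.filter fun k => (r k).den ≤ Q).card : ℝ) ≤ (2 * (w / L) + 1) * (7 * (Q : ℝ) ^ 2) := by
  classical
  have hL1 : (1 : ℝ) ≤ L := by exact_mod_cast hL
  have hQ1 : (1 : ℝ) ≤ Q := by exact_mod_cast hQ
  have hw0 : 0 < w := by linarith
  set K2 := K.filter fun k => (r k).den ≤ Q with hK2
  have h1 : K2.card ≤ ⌊2 * (w / L) + 1⌋₊ * (K2.image r).card := by
    apply card_le_mul_card_image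
    intro q _
    rw [Nat.le_floor_iff (by positivity)]
    apply int_window (by positivity) (c := w * q)
    intro k hk
    rw [mem_filter] at hk
    have h2 := hr k
    rw [hk.2] at h2
    have hden : (1 : ℝ) ≤ q.den := by exact_mod_cast q.pos
    have e : (k : ℝ) - w * q = w * ((k : ℝ) / w - q) := by field_simp
    rw [e, abs_mul, abs_of_pos hw0]
    calc w * |(k : ℝ) / w - q| ≤ w * (1 / (((L : ℝ) + 1) * q.den)) := by gcongr
      _ ≤ w * (1 / L) := by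
        gcongr
        nlinarith
      _ = w / L := by ring
  have h2 : K2.image r ⊆ (Icc (-(3 * (Q : ℤ))) (3 * Q) ×ˢ Icc 1 Q).image
      (fun p : ℤ × ℕ => (p.1 : ℚ) / p.2) := by
    intro q hq
    rw [mem_image] at hq
    obtain ⟨k, hk, rfl⟩ := hq
    rw [hK2, mem_filter] at hk
    have hden : (1 : ℝ) ≤ (r k).den := by exact_mod_cast (r k).pos
    have e1 : |((r k : ℚ) : ℝ)| ≤ 3 := by
      have e2 : ((r k : ℚ) : ℝ) = (k : ℝ) / w - ((k : ℝ) / w - r k) := by ring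
      rw [e2]
      refine (abs_sub _ _).trans ?_
      have e3 : 1 / (((L : ℝ) + 1) * (r k).den) ≤ 1 := by
        rw [div_le_one (by positivity)]
        nlinarith
      linarith [hK k hk.1, hr k]
    have e4 : |((r k).num : ℝ)| ≤ 3 * Q := by
      have e5 : ((r k).num : ℝ) = ((r k : ℚ) : ℝ) * (r k).den := by
        rw [Rat.cast_def]
        field_simp
      rw [e5, abs_mul, Nat.abs_cast]
      have e6 : ((r k).den : ℝ) ≤ Q := by exact_mod_cast hk.2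
      gcongr
    have e7 : |(r k).num| ≤ 3 * (Q : ℤ) := by exact_mod_cast e4
    rw [mem_image]
    refine ⟨((r k).num, (r k).den), ?_, Rat.num_div_den _⟩
    rw [mem_product, mem_Icc, mem_Icc, ← abs_le]
    exact ⟨e7, (r k).pos, hk.2⟩
  have h3 : (K2.image r).card ≤ (6 * Q + 1) * Q := by
    refine (card_le_card h2).trans (card_image_le.trans ?_)
    rw [card_product, Int.card_Icc, Nat.card_Icc]
    have : (3 * (Q : ℤ) + 1 - -(3 * (Q : ℤ))).toNat = 6 * Q + 1 := by omega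
    rw [this]
    simp
  have h4 : ((K2.image r).card : ℝ) ≤ 7 * (Q : ℝ) ^ 2 := by
    calc ((K2.image r).card : ℝ) ≤ (((6 * Q + 1) * Q : ℕ) : ℝ) := by exact_mod_cast h3
      _ = (6 * (Q : ℝ) + 1) * Q := by push_cast; ring
      _ ≤ 7 * (Q : ℝ) ^ 2 := by nlinarith
  calc (K2.card : ℝ) ≤ ((⌊2 * (w / L) + 1⌋₊ * (K2.image r).card : ℕ) : ℝ) := by exact_mod_cast h1
    _ = (⌊2 * (w / L) + 1⌋₊ : ℝ) * (K2.image r).card := by push_cast; ring
    _ ≤ (2 * (w / L) + 1) * (7 * (Q : ℝ) ^ 2) := by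
      gcongr
      exact Nat.floor_le (by positivity)

/-- the count for fixed parameters -/
lemma count {d H : ℕ} (hB : S_BLK) (hd : 1 ≤ d) {w D0 D1 : ℝ} (hw : 1 ≤ w) (hD0 : 0 ≤ D0) (hD0' : D0 < 1 / 2)
    {Q : ℕ} (hQ : 1 ≤ Q) (S : Finset (Cf d)) (hS : S ⊆ ibox ↥(I d) H)
    (hk : ∀ a ∈ S, ∃ k ∈ Icc (-⌊2 * w⌋) ⌊2 * w⌋,
      |TT (co a) d 0 ((k : ℝ) / w)| ≤ D0 ∧ |TT (co a) d 1 ((k : ℝ) / w)| ≤ D1)
    {L : ℕ} (hL : L = ⌊2 * D1⌋₊ + 1) :
    (S.card : ℝ) ≤ ((5 * w) * (4 * L * D0 + 3 * (L / Q) + 3) + (2 * w + L) * (7 * (Q : ℝ) ^ 2)) *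
      (2 * (H : ℝ) + 1) ^ (MM d - 2) := by
  classical
  have hw0 : 0 < w := by linarith
  have hL1 : 1 ≤ L := by omega
  have hL1' : (1 : ℝ) ≤ L := by exact_mod_cast hL1
  have hQ1 : (1 : ℝ) ≤ Q := by exact_mod_cast hQ
  set K := Icc (-⌊2 * w⌋) ⌊2 * w⌋ with hK
  have hK2 : ∀ k ∈ K, |(k : ℝ) / w| ≤ 2 := by
    intro k hk
    rw [hK, mem_Icc, ← abs_le] at hk
    rw [abs_div, abs_of_pos hw0, div_le_iff₀ hw0]
    have h1 : ((|k| : ℤ) : ℝ) ≤ ⌊2 * w⌋ := by exact_mod_cast hk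
    rw [Int.cast_abs] at h1
    exact h1.trans (Int.floor_le _)
  have hKc : (K.card : ℝ) ≤ 5 * w := (card_grid (by positivity)).trans (by linarith)
  have hr : ∀ k : ℤ, ∃ q : ℚ, |(k : ℝ) / w - q| ≤ 1 / (((L : ℝ) + 1) * q.den) ∧ q.den ≤ L :=
    fun k => Real.exists_rat_abs_sub_le_and_den_le _ (by omega)
  choose r hr1 hr2 using hr
  set P : ℤ → Cf d → Prop := fun k a => |TT (co a) d 0 ((k : ℝ) / w)| ≤ D0 ∧ |TT (co a) d 1 ((k : ℝ) / w)| ≤ D1
    with hP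
  set E : ℝ := 4 * L * D0 + 3 * (L / Q) + 3 with hE
  have hE0 : 0 ≤ E := by positivity
  -- the bound for one grid point
  have hone : ∀ k ∈ K, ((S.filter (P k)).card : ℝ) ≤
      (if (r k).den ≤ Q then (L : ℝ) else E) * (2 * (H : ℝ) + 1) ^ (MM d - 2) := by
    intro k _
    set Bk : ℝ := if (r k).den ≤ Q then (L : ℝ) else E with hBk
    have hBk0 : 0 ≤ Bk := by
      rw [hBk]
      split_ifs
      · positivity
      · exact hE0
    have h1 := card_fiber (H := H) (S := S.filter (P k)) ((filter_subset _ _).trans hS)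
      ({p0 d, p1 hd} : Finset ↥(I d)) ⌊Bk⌋₊ (by
        intro b T hT hTb
        rw [Nat.le_floor_iff hBk0]
        obtain ⟨A, c, N, hN, hN2⟩ := fiber hd ((k : ℝ) / w) D0 D1 hD0' b T hTb
          (fun a ha => (mem_filter.1 (hT ha)).2.1) (fun a ha => (mem_filter.1 (hT ha)).2.2)
        rw [← hL] at hN2
        rw [hN, hBk]
        split_ifs with hq
        · exact_mod_cast card_trivial (fun n hn => (hN2 n hn).1)
        · rw [not_le] at hq
          have hden : (0 : ℝ) < (r k).den := by exact_mod_cast (r k).pos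
          have h2 := hB ((k : ℝ) / w) c D0 L (r k).den (r k).num hD0 (r k).pos (hr2 k)
            (Int.isCoprime_iff_gcd_eq_one.2 (r k).reduced) (by
              have h3 := hr1 k
              rw [Rat.cast_def] at h3
              refine h3.trans ?_
              apply one_div_le_one_div_of_le
              · positivity
              · nlinarith) A N hN2
          refine h2.trans ?_
          rw [hE]
          have h4 : (Q : ℝ) ≤ (r k).den := by exact_mod_cast hq.le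
          gcongr)
    have h2 : ({p0 d, p1 hd} : Finset ↥(I d)).card = 2 := card_pair (p_ne hd)
    rw [h2] at h1
    calc ((S.filter (P k)).card : ℝ) ≤ ((⌊Bk⌋₊ * (2 * H + 1) ^ (Fintype.card ↥(I d) - 2) : ℕ) : ℝ) := by
          exact_mod_cast h1
      _ = (⌊Bk⌋₊ : ℝ) * (2 * (H : ℝ) + 1) ^ (MM d - 2) := by
          push_cast
          rfl
      _ ≤ Bk * (2 * (H : ℝ) + 1) ^ (MM d - 2) := by
          gcongr
          exact Nat.floor_le hBk0
  have hcov : S ⊆ K.biUnion fun k => S.filter (P k) := by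
    intro a ha
    obtain ⟨k, hkK, h⟩ := hk a ha
    rw [mem_biUnion]
    exact ⟨k, hkK, mem_filter.2 ⟨ha, h⟩⟩
  have hsum : (S.card : ℝ) ≤ ∑ k ∈ K, ((S.filter (P k)).card : ℝ) := by
    have := (card_le_card hcov).trans card_biUnion_le
    exact_mod_cast this
  have hKs := count_small hw hL1 hQ K hK2 r hr1
  have hsplit : ∑ k ∈ K, (if (r k).den ≤ Q then (L : ℝ) else E) ≤
      (2 * w + L) * (7 * (Q : ℝ) ^ 2) + (5 * w) * E := by
    rw [sum_ite, sum_const, sum_const, nsmul_eq_mul, nsmul_eq_mul]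
    apply add_le_add
    · calc ((K.filter fun k => (r k).den ≤ Q).card : ℝ) * L ≤ ((2 * (w / L) + 1) * (7 * (Q : ℝ) ^ 2)) * L := by
            gcongr
        _ = (2 * w + L) * (7 * (Q : ℝ) ^ 2) := by field_simp
    · apply mul_le_mul_of_nonneg_right _ hE0
      refine le_trans ?_ hKc
      exact_mod_cast card_le_card (filter_subset _ _)
  calc (S.card : ℝ) ≤ ∑ k ∈ K, ((S.filter (P k)).card : ℝ) := hsum
    _ ≤ ∑ k ∈ K, (if (r k).den ≤ Q then (L : ℝ) else E) * (2 * (H : ℝ) + 1) ^ (MM d - 2) := sum_le_sum hone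
    _ = (∑ k ∈ K, (if (r k).den ≤ Q then (L : ℝ) else E)) * (2 * (H : ℝ) + 1) ^ (MM d - 2) := by
        rw [sum_mul]
    _ ≤ ((2 * w + L) * (7 * (Q : ℝ) ^ 2) + (5 * w) * E) * (2 * (H : ℝ) + 1) ^ (MM d - 2) := by
        gcongr
    _ = _ := by ring

theorem t_GAH (hB : S_BLK) : S_GAH := by
  intro d hd ε hε
  have hd1 : 1 ≤ d := by omega
  have hc1 := c1_pos d
  have hdc : 0 ≤ (d : ℝ) * c1 d := by positivity
  set g : ℝ := (d : ℝ) * c1 d with hg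
  set M : ℝ := 3 + 2 * g with hM
  set C : ℝ := 5 * (4 * M * (2 + g) + 6 * M + 3) + 7 * (2 + M) with hC
  have hC0 : 0 < C := by positivity
  set X0 : ℝ := 1 + 2 * (2 + g) + C / ε with hX0
  have hX1 : 1 ≤ X0 := by
    have : 0 ≤ C / ε := by positivity
    rw [hX0]
    linarith
  refine ⟨⌈X0 ^ 8⌉₊, fun H hH S hS hG => ?_⟩
  have hH0 : (0 : ℝ) ≤ H := Nat.cast_nonneg H
  have hHX : X0 ^ 8 ≤ H := Nat.ceil_le.1 hH
  set x : ℝ := (H : ℝ) ^ ((1 : ℝ) / 16) with hx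
  have hx0 : 0 ≤ x := Real.rpow_nonneg hH0 _
  have hx16 : x ^ 16 = H := by
    rw [hx, ← Real.rpow_natCast, ← Real.rpow_mul hH0]
    norm_num
  have hx9 : (H : ℝ) ^ ((9 : ℝ) / 16) = x ^ 9 := by
    rw [hx, ← Real.rpow_natCast, ← Real.rpow_mul hH0]
    norm_num
  have hx2 : X0 ≤ x ^ 2 := by
    have h1 : X0 ^ 8 ≤ (x ^ 2) ^ 8 := by
      rw [← pow_mul]
      norm_num
      rw [hx16]
      exact hHX
    exact (pow_le_pow_iff_left₀ (by linarith) (by positivity) (by norm_num)).1 h1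
  have hx1 : 1 ≤ x := by
    by_contra h
    push Not at h
    have : x ^ 2 < 1 := pow_lt_one₀ hx0 h (by norm_num)
    linarith
  have hxpos : 0 < x := by linarith
  rw [hx9] at hG
  have hw1 : 1 ≤ x ^ 9 := one_le_pow₀ hx1
  have e0 : (H : ℝ) / (x ^ 9) ^ 2 = 1 / x ^ 2 := by
    rw [← hx16]
    field_simp
  have e1 : (H : ℝ) / x ^ 9 = x ^ 7 := by
    rw [← hx16]
    field_simp
  set D0 : ℝ := (2 + g) * (1 / x ^ 2) with hD0
  set D1 : ℝ := (1 + g) * x ^ 7 with hD1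
  have hD0' : D0 < 1 / 2 := by
    rw [hD0, mul_one_div, div_lt_iff₀ (by positivity)]
    have : 0 < C / ε := by positivity
    linarith
  have hcov : ∀ a ∈ S, ∃ k ∈ Icc (-⌊2 * x ^ 9⌋) ⌊2 * x ^ 9⌋,
      |TT (co a) d 0 ((k : ℝ) / x ^ 9)| ≤ D0 ∧ |TT (co a) d 1 ((k : ℝ) / x ^ 9)| ≤ D1 := by
    intro a ha
    have := cover hd1 hw1 (hS ha) (hG a ha)
    rw [e0, e1] at this
    exact this
  set Q : ℕ := ⌊x ^ 2⌋₊ with hQ
  have hxx : 1 ≤ x ^ 2 := one_le_pow₀ hx1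
  have hQ1 : 1 ≤ Q := by
    rw [hQ, Nat.one_le_floor_iff]
    exact hxx
  have hQle : (Q : ℝ) ≤ x ^ 2 := Nat.floor_le (by positivity)
  have hQge : x ^ 2 / 2 ≤ Q := by
    have h1 : x ^ 2 < (Q : ℝ) + 1 := Nat.lt_floor_add_one _
    have h2 : (1 : ℝ) ≤ Q := by exact_mod_cast hQ1
    linarith
  obtain ⟨L, hL⟩ : ∃ L : ℕ, L = ⌊2 * D1⌋₊ + 1 := ⟨_, rfl⟩
  have hx7 : 1 ≤ x ^ 7 := one_le_pow₀ hx1
  have hLle : (L : ℝ) ≤ M * x ^ 7 := by
    have h1 : (⌊2 * D1⌋₊ : ℝ) ≤ 2 * D1 := Nat.floor_le (by positivity)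
    rw [hL]
    push_cast
    rw [hM]
    calc (⌊2 * D1⌋₊ : ℝ) + 1 ≤ 2 * D1 + x ^ 7 := add_le_add h1 hx7
      _ = (3 + 2 * g) * x ^ 7 := by rw [hD1]; ring
  have hmain := count hB hd1 hw1 (by positivity) hD0' hQ1 S hS hcov hL
  have hM0 : 0 < M := by positivity
  have hLQ : (L : ℝ) / Q ≤ 2 * M * x ^ 5 := by
    calc (L : ℝ) / Q ≤ (M * x ^ 7) / (x ^ 2 / 2) := by gcongr
      _ = 2 * M * x ^ 5 := by field_simp
  have hx5 : 1 ≤ x ^ 5 := one_le_pow₀ hx1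
  have hE : 4 * L * D0 + 3 * (L / Q) + 3 ≤ (4 * M * (2 + g) + 6 * M + 3) * x ^ 5 := by
    have h1 : 4 * L * D0 ≤ 4 * M * (2 + g) * x ^ 5 := by
      calc 4 * L * D0 ≤ 4 * (M * x ^ 7) * D0 := by gcongr
        _ = 4 * M * (2 + g) * x ^ 5 := by
          rw [hD0]
          field_simp
    nlinarith
  have htot : (5 * x ^ 9) * (4 * L * D0 + 3 * (L / Q) + 3) + (2 * x ^ 9 + L) * (7 * (Q : ℝ) ^ 2) ≤
      C * x ^ 14 := by
    have h1 : (5 * x ^ 9) * (4 * L * D0 + 3 * (L / Q) + 3) ≤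
        5 * (4 * M * (2 + g) + 6 * M + 3) * x ^ 14 := by
      calc (5 * x ^ 9) * (4 * L * D0 + 3 * (L / Q) + 3) ≤
          (5 * x ^ 9) * ((4 * M * (2 + g) + 6 * M + 3) * x ^ 5) := by gcongr
        _ = _ := by ring
    have h2 : (2 * x ^ 9 + L) * (7 * (Q : ℝ) ^ 2) ≤ 7 * (2 + M) * x ^ 14 := by
      calc (2 * x ^ 9 + L) * (7 * (Q : ℝ) ^ 2) ≤ (2 * x ^ 9 + M * x ^ 9) * (7 * (x ^ 2) ^ 2) := by
            have h3 : M * x ^ 7 ≤ M * x ^ 9 := by
              have : x ^ 7 ≤ x ^ 9 := pow_le_pow_right₀ hx1 (by norm_num)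
              gcongr
            have h4 : (L : ℝ) ≤ M * x ^ 9 := hLle.trans h3
            gcongr
        _ = 7 * (2 + M) * x ^ 13 := by ring
        _ ≤ 7 * (2 + M) * x ^ 14 := by
            have : x ^ 13 ≤ x ^ 14 := pow_le_pow_right₀ hx1 (by norm_num)
            gcongr
    refine (add_le_add h1 h2).trans (le_of_eq ?_)
    rw [hC]
    ring
  have hfin : C * x ^ 14 ≤ ε * (2 * (H : ℝ) + 1) := by
    have h1 : C ≤ ε * x ^ 2 := by
      have h2 : C / ε ≤ x ^ 2 := by linarith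
      rw [div_le_iff₀ hε] at h2
      linarith
    calc C * x ^ 14 ≤ (ε * x ^ 2) * x ^ 14 := by gcongr
      _ = ε * H := by rw [← hx16]; ring
      _ ≤ ε * (2 * (H : ℝ) + 1) := by
        gcongr
        linarith
  have hMM : MM d - 1 = (MM d - 2) + 1 := by
    have := MM_ge hd1
    omega
  rw [hMM, pow_succ]
  calc (S.card : ℝ) ≤ _ := hmain
    _ ≤ (C * x ^ 14) * (2 * (H : ℝ) + 1) ^ (MM d - 2) := by gcongr
    _ ≤ (ε * (2 * (H : ℝ) + 1)) * (2 * (H : ℝ) + 1) ^ (MM d - 2) := by gcongr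
    _ = _ := by ring

end Pool.Agent.N498.PC
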